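import Pool.Agent.Helper93.EX1.Alt

/-!
# Project EX, theorem 1, part 3: `dd Psi = (1/90) Alt [D(r) log|r|]`
-/

set_option autoImplicit false

namespace Pool.Agent.Helper93.EX1

open Pool.Agent.Helper87.EX (dt LL Alt dd Gen G3 act Inv Alter b2)
open Equiv

section
variable {D : ℂ → ℝ}

/-- Goncharov's ratio of six vectors -/
noncomputable def r3 (a b c d e f : Fin 3 → ℂ) : ℂ :=
  dt a b d * dt b c e * dt c a f / (dt a b e * dt b c f * dt c a d)

/-- the function `Psi` of five vectors, over an abstract `D` -/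
noncomputable def PsiD (D : ℂ → ℝ) : (Fin 5 → Fin 3 → ℂ) → ℝ :=
  Alt (fun v => -(1 / 18) * (V D (v 0) (v 1) (v 2) (v 3) (v 4) * LL (v 2) (v 3) (v 4)))

/-- the intersection of the lines `ad` and `be` -/
noncomputable def OO (a b d e : Fin 3 → ℂ) : Fin 3 → ℂ := dt a b e • d - dt d b e • a

lemma dt_OO_a (a b c d e : Fin 3 → ℂ) : dt c a (OO a b d e) = dt a b e * dt c a d := by
  unfold OO dt
  simp only [Pi.sub_apply, Pi.smul_apply, smul_eq_mul]
  ring

lemma dt_OO_d (a b c d e : Fin 3 → ℂ) : dt c d (OO a b d e) = dt d b e * dt c a d := by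
  unfold OO dt
  simp only [Pi.sub_apply, Pi.smul_apply, smul_eq_mul]
  ring

lemma dt_OO_b (a b c d e : Fin 3 → ℂ) : dt c b (OO a b d e) = dt a b d * dt c b e := by
  unfold OO dt
  simp only [Pi.sub_apply, Pi.smul_apply, smul_eq_mul]
  ring

/-- the middle term, symmetric in `c` and `f` -/
noncomputable def MM (D : ℂ → ℝ) (a b c d e f : Fin 3 → ℂ) : ℝ :=
  D (dt c a f * dt d b e / (dt a b e * dt c d f))

/-- identity (I) of the proof -/
lemma ident (h : IsBW D) (a b c d e f : Fin 3 → ℂ)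
    (habd : dt a b d ≠ 0) (habe : dt a b e ≠ 0) (hdbe : dt d b e ≠ 0) (hcad : dt c a d ≠ 0)
    (hcbe : dt c b e ≠ 0) (hcab : dt c a b ≠ 0) (hcaf : dt c a f ≠ 0)
    (hcbd : dt c b d ≠ 0) (hcbf : dt c b f ≠ 0) (hcdf : dt c d f ≠ 0) :
    D (r3 a b c d e f) - D (r3 d b c a e f) =
      MM D a b c d e f + V D b a c d e - V D c a b d f := by
  set O := OO a b d e with hO
  have ea : dt c a O = dt a b e * dt c a d := dt_OO_a a b c d e
  have ed : dt c d O = dt d b e * dt c a d := dt_OO_d a b c d e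
  have eb : dt c b O = dt a b d * dt c b e := dt_OO_b a b c d e
  have key := five_bracket h (dt c) a b d f O hcab hcad hcaf
    (by rw [ea]; exact mul_ne_zero habe hcad) hcbd hcbf
    (by rw [eb]; exact mul_ne_zero habd hcbe) hcdf
    (by rw [ed]; exact mul_ne_zero hdbe hcad)
    (dt_pluecker c a b d f) (dt_pluecker c a b d O)
  have c0 : cr D (dt c) b d f O = - D (r3 d b c a e f) := by
    rw [← h.inv]
    unfold cr r3
    congr 1
    rw [eb, ed, dt_swap13 a b d, dt_swap12 c b e, dt_swap12 c b f, dt_swap23 c a d, inv_div]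
    field_simp
  have c1 : cr D (dt c) a d f O = MM D a b c d e f := by
    unfold cr MM
    congr 1
    rw [ea, ed]
    field_simp
  have c2 : cr D (dt c) a b f O = D (r3 a b c d e f) := by
    unfold cr r3
    congr 1
    rw [ea, eb, dt_swap12 c b e, dt_swap12 c b f]
    field_simp
  have c3 : cr D (dt c) a b d O = V D b a c d e := by
    unfold cr V
    congr 1
    rw [ea, eb, dt_swap12 a b d, dt_swap12 c b e, dt_swap12 a b e, dt_swap12 c b d]
    field_simp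
  have c4 : cr D (dt c) a b d f = V D c a b d f := rfl
  rw [c0, c1, c2, c3, c4] at key
  linear_combination key

lemma MM_symm (a b c d e f : Fin 3 → ℂ) : MM D a b f d e c = MM D a b c d e f := by
  unfold MM
  congr 1
  rw [dt_swap13 c a f, dt_swap13 c d f]
  rw [neg_mul, mul_neg, neg_div_neg_eq]

/-- the three kernels -/
noncomputable def KR (D : ℂ → ℝ) (w : Fin 6 → Fin 3 → ℂ) : ℝ :=
  LL (w 0) (w 1) (w 3) * D (r3 (w 0) (w 1) (w 2) (w 3) (w 4) (w 5))
noncomputable def KX (D : ℂ → ℝ) (w : Fin 6 → Fin 3 → ℂ) : ℝ :=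
  LL (w 0) (w 1) (w 3) * V D (w 2) (w 0) (w 1) (w 3) (w 4)
noncomputable def KY (D : ℂ → ℝ) (w : Fin 6 → Fin 3 → ℂ) : ℝ :=
  LL (w 0) (w 1) (w 3) * V D (w 1) (w 0) (w 2) (w 3) (w 4)

lemma gen_comp {n : ℕ} {v : Fin n → Fin 3 → ℂ} (hv : Gen v) (σ : Perm (Fin n)) :
    Gen (fun i => v (σ i)) := fun i j k h1 h2 h3 =>
  hv (σ i) (σ j) (σ k) (fun e => h1 (σ.injective e)) (fun e => h2 (σ.injective e))
    (fun e => h3 (σ.injective e))

lemma r3_cyc (a b c d e f : Fin 3 → ℂ) : r3 b c a e f d = r3 a b c d e f := by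
  unfold r3
  congr 1 <;> ring

lemma r3_flip (a b c d e f : Fin 3 → ℂ) : r3 b a c e d f = (r3 a b c d e f)⁻¹ := by
  unfold r3
  rw [inv_div, dt_swap12 a b e, dt_swap12 c a d, dt_swap12 b c f, dt_swap12 a b d,
    dt_swap12 c a f, dt_swap12 b c e]
  rw [show -dt a b e * -dt c a d * -dt b c f = -(dt a b e * dt b c f * dt c a d) by ring,
    show -dt a b d * -dt c a f * -dt b c e = -(dt a b d * dt b c e * dt c a f) by ring,
    neg_div_neg_eq]

lemma alt_KR (v : Fin 6 → Fin 3 → ℂ) (τ : Perm (Fin 6)) (hτ : Perm.sign τ = 1)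
    (p : Fin 6 → Fin 6) (hp : ∀ i, τ i = p i) {F' : (Fin 6 → Fin 3 → ℂ) → ℝ}
    (hF : ∀ w, F' w = KR D (fun i => w (p i))) : Alt F' v = Alt (KR D) v := by
  have h1 : ∀ w, F' w = KR D (fun i => w (τ i)) := by
    intro w
    rw [hF w]
    congr 1
    funext i
    rw [hp i]
  rw [alt_perm τ h1 v, hτ]
  norm_num

lemma log_r3 {a b c d e f : Fin 3 → ℂ} (h1 : dt a b d ≠ 0) (h2 : dt b c e ≠ 0)
    (h3 : dt c a f ≠ 0) (h4 : dt a b e ≠ 0) (h5 : dt b c f ≠ 0) (h6 : dt c a d ≠ 0) :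
    Real.log ‖r3 a b c d e f‖ = LL a b d + LL b c e + LL c a f - LL a b e - LL b c f - LL c a d := by
  unfold r3 LL
  rw [norm_div, norm_mul, norm_mul, norm_mul, norm_mul,
    Real.log_div (mul_ne_zero (mul_ne_zero (norm_ne_zero_iff.mpr h1) (norm_ne_zero_iff.mpr h2))
      (norm_ne_zero_iff.mpr h3)) (mul_ne_zero (mul_ne_zero (norm_ne_zero_iff.mpr h4)
      (norm_ne_zero_iff.mpr h5)) (norm_ne_zero_iff.mpr h6)),
    Real.log_mul (mul_ne_zero (norm_ne_zero_iff.mpr h1) (norm_ne_zero_iff.mpr h2))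
      (norm_ne_zero_iff.mpr h3),
    Real.log_mul (norm_ne_zero_iff.mpr h1) (norm_ne_zero_iff.mpr h2),
    Real.log_mul (mul_ne_zero (norm_ne_zero_iff.mpr h4) (norm_ne_zero_iff.mpr h5))
      (norm_ne_zero_iff.mpr h6),
    Real.log_mul (norm_ne_zero_iff.mpr h4) (norm_ne_zero_iff.mpr h5)]
  ring

/-- `Alt [D(r) log|r|] = 6 Alt [LL(abd) D(r)]` -/
lemma alt_log (h : IsBW D) (v : Fin 6 → Fin 3 → ℂ) (hv : Gen v) :
    Alt (fun w => D (r3 (w 0) (w 1) (w 2) (w 3) (w 4) (w 5)) *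
      Real.log ‖r3 (w 0) (w 1) (w 2) (w 3) (w 4) (w 5)‖) v = 6 * Alt (KR D) v := by
  have s2 : ∀ {i j k l : Fin 6}, i ≠ j → k ≠ l →
      Perm.sign (Equiv.swap i j * Equiv.swap k l) = 1 := by
    intro i j k l h1 h2
    rw [Perm.sign_mul, Perm.sign_swap h1, Perm.sign_swap h2]
    rfl
  have s4 : ∀ {i j k l i' j' k' l' : Fin 6}, i ≠ j → k ≠ l → i' ≠ j' → k' ≠ l' →
      Perm.sign ((Equiv.swap i j * Equiv.swap k l) * (Equiv.swap i' j' * Equiv.swap k' l')) = 1 := by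
    intro i j k l i' j' k' l' h1 h2 h3 h4
    rw [Perm.sign_mul, s2 h1 h2, s2 h3 h4]
    rfl
  have k2 : Alt (fun w => LL (w 1) (w 2) (w 4) *
      D (r3 (w 0) (w 1) (w 2) (w 3) (w 4) (w 5))) v = Alt (KR D) v := by
    refine alt_KR v ((Equiv.swap 0 1 * Equiv.swap 1 2) * (Equiv.swap 3 4 * Equiv.swap 4 5))
      (s4 (by decide) (by decide) (by decide) (by decide)) ![1, 2, 0, 4, 5, 3] (by decide) ?_
    intro w
    show _ = LL (w 1) (w 2) (w 4) * D (r3 (w 1) (w 2) (w 0) (w 4) (w 5) (w 3))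
    rw [r3_cyc (w 0) (w 1) (w 2) (w 3) (w 4) (w 5)]
  have k3 : Alt (fun w => LL (w 2) (w 0) (w 5) *
      D (r3 (w 0) (w 1) (w 2) (w 3) (w 4) (w 5))) v = Alt (KR D) v := by
    refine alt_KR v ((Equiv.swap 1 2 * Equiv.swap 0 1) * (Equiv.swap 4 5 * Equiv.swap 3 4))
      (s4 (by decide) (by decide) (by decide) (by decide)) ![2, 0, 1, 5, 3, 4] (by decide) ?_
    intro w
    show _ = LL (w 2) (w 0) (w 5) * D (r3 (w 2) (w 0) (w 1) (w 5) (w 3) (w 4))
    rw [← r3_cyc (w 2) (w 0) (w 1) (w 5) (w 3) (w 4)]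
  have k4 : Alt (fun w => -(LL (w 0) (w 1) (w 4) *
      D (r3 (w 0) (w 1) (w 2) (w 3) (w 4) (w 5)))) v = Alt (KR D) v := by
    refine alt_KR v (Equiv.swap 0 1 * Equiv.swap 3 4)
      (s2 (by decide) (by decide)) ![1, 0, 2, 4, 3, 5] (by decide) ?_
    intro w
    show _ = LL (w 1) (w 0) (w 4) * D (r3 (w 1) (w 0) (w 2) (w 4) (w 3) (w 5))
    rw [r3_flip, h.inv, LL_swap12]
    ring
  have k5 : Alt (fun w => -(LL (w 1) (w 2) (w 5) *
      D (r3 (w 0) (w 1) (w 2) (w 3) (w 4) (w 5)))) v = Alt (KR D) v := by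
    refine alt_KR v (Equiv.swap 0 2 * Equiv.swap 3 5)
      (s2 (by decide) (by decide)) ![2, 1, 0, 5, 4, 3] (by decide) ?_
    intro w
    show _ = LL (w 2) (w 1) (w 5) * D (r3 (w 2) (w 1) (w 0) (w 5) (w 4) (w 3))
    rw [r3_flip, h.inv, r3_cyc, LL_swap12]
    ring
  have k6 : Alt (fun w => -(LL (w 2) (w 0) (w 3) *
      D (r3 (w 0) (w 1) (w 2) (w 3) (w 4) (w 5)))) v = Alt (KR D) v := by
    refine alt_KR v (Equiv.swap 1 2 * Equiv.swap 4 5)
      (s2 (by decide) (by decide)) ![0, 2, 1, 3, 5, 4] (by decide) ?_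
    intro w
    show _ = LL (w 0) (w 2) (w 3) * D (r3 (w 0) (w 2) (w 1) (w 3) (w 5) (w 4))
    rw [r3_flip (w 2) (w 0) (w 1) (w 5) (w 3) (w 4), h.inv,
      ← r3_cyc (w 2) (w 0) (w 1) (w 5) (w 3) (w 4), LL_swap12]
    ring
  have e : Alt (fun w => D (r3 (w 0) (w 1) (w 2) (w 3) (w 4) (w 5)) *
      Real.log ‖r3 (w 0) (w 1) (w 2) (w 3) (w 4) (w 5)‖) v =
      Alt (fun w : Fin 6 → Fin 3 → ℂ => ((((KR D w
        + LL (w 1) (w 2) (w 4) * D (r3 (w 0) (w 1) (w 2) (w 3) (w 4) (w 5)))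
        + LL (w 2) (w 0) (w 5) * D (r3 (w 0) (w 1) (w 2) (w 3) (w 4) (w 5)))
        + -(LL (w 0) (w 1) (w 4) * D (r3 (w 0) (w 1) (w 2) (w 3) (w 4) (w 5))))
        + -(LL (w 1) (w 2) (w 5) * D (r3 (w 0) (w 1) (w 2) (w 3) (w 4) (w 5))))
        + -(LL (w 2) (w 0) (w 3) * D (r3 (w 0) (w 1) (w 2) (w 3) (w 4) (w 5)))) v := by
    refine alt_congr fun σ => ?_
    have hw := gen_comp hv σ
    set w := fun i => v (σ i) with hw'
    have nz : ∀ i j k : Fin 6, i ≠ j → i ≠ k → j ≠ k → dt (w i) (w j) (w k) ≠ 0 := hw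
    show D (r3 (w 0) (w 1) (w 2) (w 3) (w 4) (w 5)) *
      Real.log ‖r3 (w 0) (w 1) (w 2) (w 3) (w 4) (w 5)‖ = _
    rw [log_r3 (nz _ _ _ (by decide) (by decide) (by decide))
      (nz _ _ _ (by decide) (by decide) (by decide)) (nz _ _ _ (by decide) (by decide) (by decide))
      (nz _ _ _ (by decide) (by decide) (by decide)) (nz _ _ _ (by decide) (by decide) (by decide))
      (nz _ _ _ (by decide) (by decide) (by decide))]
    unfold KR
    ring
  rw [e, alt_add, alt_add, alt_add, alt_add, alt_add, k2, k3, k4, k5, k6]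
  ring

/-- `2 Alt KR = Alt KY + Alt KX` -/
lemma alt_ident (h : IsBW D) (v : Fin 6 → Fin 3 → ℂ) (hv : Gen v) :
    2 * Alt (KR D) v = Alt (KY D) v + Alt (KX D) v := by
  have k1 : Alt (fun w => LL (w 0) (w 1) (w 3) *
      D (r3 (w 3) (w 1) (w 2) (w 0) (w 4) (w 5))) v = - Alt (KR D) v := by
    refine alt_swap (i := 0) (j := 3) (by decide) (fun w => ?_) v
    show _ = LL (w 3) (w 1) (w 0) * D (r3 (w 3) (w 1) (w 2) (w 0) (w 4) (w 5))
    rw [LL_swap13]
  have k2 : Alt (fun w => LL (w 0) (w 1) (w 3) *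
      MM D (w 0) (w 1) (w 2) (w 3) (w 4) (w 5)) v = 0 := by
    refine alt_zero (i := 2) (j := 5) (by decide) (fun w => ?_) v
    show _ = LL (w 0) (w 1) (w 3) * MM D (w 0) (w 1) (w 5) (w 3) (w 4) (w 2)
    rw [MM_symm]
  have k3 : Alt (fun w => LL (w 0) (w 1) (w 3) *
      V D (w 2) (w 0) (w 1) (w 3) (w 5)) v = - Alt (KX D) v := by
    refine alt_swap (i := 4) (j := 5) (by decide) (fun w => ?_) v
    rfl
  have e : Alt (fun w : Fin 6 → Fin 3 → ℂ => KR D w - LL (w 0) (w 1) (w 3) *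
      D (r3 (w 3) (w 1) (w 2) (w 0) (w 4) (w 5))) v =
      Alt (fun w : Fin 6 → Fin 3 → ℂ => (LL (w 0) (w 1) (w 3) *
        MM D (w 0) (w 1) (w 2) (w 3) (w 4) (w 5) + KY D w) - LL (w 0) (w 1) (w 3) *
        V D (w 2) (w 0) (w 1) (w 3) (w 5)) v := by
    refine alt_congr fun σ => ?_
    have hw := gen_comp hv σ
    set w := fun i => v (σ i) with hw'
    have nz : ∀ i j k : Fin 6, i ≠ j → i ≠ k → j ≠ k → dt (w i) (w j) (w k) ≠ 0 := hw
    have key := ident h (w 0) (w 1) (w 2) (w 3) (w 4) (w 5)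
      (nz _ _ _ (by decide) (by decide) (by decide)) (nz _ _ _ (by decide) (by decide) (by decide))
      (nz _ _ _ (by decide) (by decide) (by decide)) (nz _ _ _ (by decide) (by decide) (by decide))
      (nz _ _ _ (by decide) (by decide) (by decide)) (nz _ _ _ (by decide) (by decide) (by decide))
      (nz _ _ _ (by decide) (by decide) (by decide)) (nz _ _ _ (by decide) (by decide) (by decide))
      (nz _ _ _ (by decide) (by decide) (by decide)) (nz _ _ _ (by decide) (by decide) (by decide))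
    show KR D w - LL (w 0) (w 1) (w 3) * D (r3 (w 3) (w 1) (w 2) (w 0) (w 4) (w 5)) = _
    unfold KR KY
    linear_combination LL (w 0) (w 1) (w 3) * key
  rw [alt_sub, alt_sub, alt_add, k1, k2, k3] at e
  linear_combination e

/-- `3 Alt KY = 2 Alt KX` -/
lemma alt_conic (h : IsBW D) (v : Fin 6 → Fin 3 → ℂ) (hv : Gen v) :
    3 * Alt (KY D) v = 2 * Alt (KX D) v := by
  -- the five terms of the conic relation for `(a, b, d, c, e)`
  have k2 : Alt (fun w => LL (w 0) (w 1) (w 3) *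
      V D (w 1) (w 0) (w 3) (w 2) (w 4)) v = - Alt (KY D) v := by
    have : (fun w : Fin 6 → Fin 3 → ℂ => LL (w 0) (w 1) (w 3) *
        V D (w 1) (w 0) (w 3) (w 2) (w 4)) = fun w => (-1) * KY D w := by
      funext w
      unfold KY
      rw [V_swap23 h]
      ring
    rw [this, alt_mul]
    ring
  have k1 : Alt (fun w => LL (w 0) (w 1) (w 3) *
      V D (w 0) (w 1) (w 3) (w 2) (w 4)) v = - Alt (fun w => LL (w 0) (w 1) (w 3) *
      V D (w 1) (w 0) (w 3) (w 2) (w 4)) v := by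
    refine alt_swap (i := 0) (j := 1) (by decide) (fun w => ?_) v
    show _ = LL (w 1) (w 0) (w 3) * V D (w 0) (w 1) (w 3) (w 2) (w 4)
    rw [LL_swap12]
  have k3 : Alt (fun w => LL (w 0) (w 1) (w 3) *
      V D (w 3) (w 0) (w 1) (w 2) (w 4)) v = - Alt (fun w => LL (w 0) (w 1) (w 3) *
      V D (w 1) (w 0) (w 3) (w 2) (w 4)) v := by
    refine alt_swap (i := 1) (j := 3) (by decide) (fun w => ?_) v
    show _ = LL (w 0) (w 3) (w 1) * V D (w 3) (w 0) (w 1) (w 2) (w 4)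
    rw [LL_swap23]
  have k5 : Alt (fun w => LL (w 0) (w 1) (w 3) *
      V D (w 4) (w 0) (w 1) (w 3) (w 2)) v = - Alt (KX D) v := by
    refine alt_swap (i := 2) (j := 4) (by decide) (fun w => ?_) v
    rfl
  have e : Alt (fun w : Fin 6 → Fin 3 → ℂ =>
      (((LL (w 0) (w 1) (w 3) * V D (w 0) (w 1) (w 3) (w 2) (w 4)
      - LL (w 0) (w 1) (w 3) * V D (w 1) (w 0) (w 3) (w 2) (w 4))
      + LL (w 0) (w 1) (w 3) * V D (w 3) (w 0) (w 1) (w 2) (w 4))
      - KX D w) + LL (w 0) (w 1) (w 3) * V D (w 4) (w 0) (w 1) (w 3) (w 2)) v =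
      Alt (fun w => 0 * KX D w) v := by
    refine alt_congr fun σ => ?_
    have hw := gen_comp hv σ
    set w := fun i => v (σ i) with hw'
    have key := conic h ![w 0, w 1, w 3, w 2, w 4] (by
      have hg : Gen (fun i => w ((![0, 1, 3, 2, 4] : Fin 5 → Fin 6) i)) := by
        have hi : Function.Injective (![0, 1, 3, 2, 4] : Fin 5 → Fin 6) := by decide
        intro i j k h1 h2 h3
        exact hw _ _ _ (fun e => h1 (hi e)) (fun e => h2 (hi e)) (fun e => h3 (hi e))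
      have he : (![w 0, w 1, w 3, w 2, w 4] : Fin 5 → Fin 3 → ℂ) =
          fun i => w ((![0, 1, 3, 2, 4] : Fin 5 → Fin 6) i) := by
        funext i
        fin_cases i <;> rfl
      rw [he]
      exact hg)
    have key' : V D (w 0) (w 1) (w 3) (w 2) (w 4) - V D (w 1) (w 0) (w 3) (w 2) (w 4)
      + V D (w 3) (w 0) (w 1) (w 2) (w 4) - V D (w 2) (w 0) (w 1) (w 3) (w 4)
      + V D (w 4) (w 0) (w 1) (w 3) (w 2) = 0 := key
    show (((LL (w 0) (w 1) (w 3) * V D (w 0) (w 1) (w 3) (w 2) (w 4)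
      - LL (w 0) (w 1) (w 3) * V D (w 1) (w 0) (w 3) (w 2) (w 4))
      + LL (w 0) (w 1) (w 3) * V D (w 3) (w 0) (w 1) (w 2) (w 4))
      - KX D w) + LL (w 0) (w 1) (w 3) * V D (w 4) (w 0) (w 1) (w 3) (w 2) = 0 * KX D w
    unfold KX
    linear_combination LL (w 0) (w 1) (w 3) * key'
  rw [alt_mul, alt_add, alt_sub, alt_add, alt_sub, k1, k3, k2, k5] at e
  linear_combination e

/-- **Theorem 1.** -/
theorem dd_Psi (h : IsBW D) (v : Fin 6 → Fin 3 → ℂ) (hv : Gen v) :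
    dd (PsiD D) v = (1 / 90) * Alt (fun w => D (r3 (w 0) (w 1) (w 2) (w 3) (w 4) (w 5)) *
      Real.log ‖r3 (w 0) (w 1) (w 2) (w 3) (w 4) (w 5)‖) v := by
  have h1 : dd (PsiD D) v = (1 / 18) * Alt (KX D) v := by
    unfold PsiD
    rw [dd_alt]
    have h2 : ∀ w : Fin 6 → Fin 3 → ℂ, -(1 / 18) * (V D (w (Fin.succ 0)) (w (Fin.succ 1))
        (w (Fin.succ 2)) (w (Fin.succ 3)) (w (Fin.succ 4)) *
        LL (w (Fin.succ 2)) (w (Fin.succ 3)) (w (Fin.succ 4))) = (1 / 18) * KX D (fun i => w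
        (((Equiv.swap 0 3 * Equiv.swap 3 5) * (Equiv.swap 1 4 * Equiv.swap 4 2) :
          Perm (Fin 6)) i)) := by
      intro w
      show -(1 / 18) * (V D (w 1) (w 2) (w 3) (w 4) (w 5) * LL (w 3) (w 4) (w 5)) =
        (1 / 18) * (LL (w 3) (w 4) (w 5) * V D (w 1) (w 3) (w 4) (w 5) (w 2))
      rw [V_swap34 h (w 1) (w 3) (w 4) (w 2) (w 5), V_swap23 h (w 1) (w 3) (w 2) (w 4) (w 5),
        V_swap12 h (w 1) (w 2) (w 3) (w 4) (w 5)]
      ring
    have h3 : Alt (fun w : Fin 6 → Fin 3 → ℂ => -(1 / 18) * (V D (w (Fin.succ 0))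
        (w (Fin.succ 1)) (w (Fin.succ 2)) (w (Fin.succ 3)) (w (Fin.succ 4)) *
        LL (w (Fin.succ 2)) (w (Fin.succ 3)) (w (Fin.succ 4)))) v =
        ((Perm.sign ((Equiv.swap 0 3 * Equiv.swap 3 5) * (Equiv.swap 1 4 * Equiv.swap 4 2) :
          Perm (Fin 6)) : ℤ) : ℝ) * Alt (fun w => (1 / 18) * KX D w) v :=
      alt_perm _ h2 v
    rw [h3, alt_mul, Perm.sign_mul, Perm.sign_mul, Perm.sign_mul, Perm.sign_swap (by decide),
      Perm.sign_swap (by decide), Perm.sign_swap (by decide), Perm.sign_swap (by decide)]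
    norm_num
  rw [h1, alt_log h v hv]
  have h2 := alt_ident h v hv
  have h3 := alt_conic h v hv
  linear_combination (-(1 / 30)) * h2 + (-(1 / 90)) * h3

end

end Pool.Agent.Helper93.EX1
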