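import Pool.Agent.Helper93.EX1.Basic

/-!
# Project EX, theorem 1, part 2: alternating sums
-/

set_option autoImplicit false

namespace Pool.Agent.Helper93.EX1

open Pool.Agent.Helper87.EX (dt LL Alt dd Gen G3 act Inv Alter b2)
open Equiv

section
variable {X : Type*} {n : ℕ}

lemma alt_comp (τ : Perm (Fin n)) (F : (Fin n → X) → ℝ) (v : Fin n → X) :
    Alt (fun w => F (fun i => w (τ i))) v = ((Perm.sign τ : ℤ) : ℝ) * Alt F v := by
  unfold Alt
  rw [Finset.mul_sum]
  refine Fintype.sum_equiv (Equiv.mulRight τ) _ _ fun σ => ?_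
  have h1 : ((Perm.sign τ : ℤ) : ℝ) * ((Perm.sign (σ * τ) : ℤ) : ℝ) = ((Perm.sign σ : ℤ) : ℝ) := by
    rw [Perm.sign_mul]
    push_cast
    have h2 : ((Perm.sign τ : ℤ) : ℝ) * ((Perm.sign τ : ℤ) : ℝ) = 1 := by
      rcases Int.units_eq_one_or (Perm.sign τ) with h | h <;> rw [h] <;> norm_num
    linear_combination ((Perm.sign σ : ℤ) : ℝ) * h2
  rw [Equiv.coe_mulRight, ← h1]
  simp only [Perm.mul_apply]
  ring

/-- the value of the alternating sum depends only on the values of `F` along permutations of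
`v`; here with a permutation of the arguments built in -/
lemma alt_perm (τ : Perm (Fin n)) {F F' : (Fin n → X) → ℝ} (h : ∀ w, F' w = F (fun i => w (τ i)))
    (v : Fin n → X) : Alt F' v = ((Perm.sign τ : ℤ) : ℝ) * Alt F v := by
  rw [← alt_comp τ F v]
  congr 1
  funext w
  exact h w

lemma alt_swap {i j : Fin n} (hij : i ≠ j) {F F' : (Fin n → X) → ℝ}
    (h : ∀ w, F' w = F (fun l => w (Equiv.swap i j l))) (v : Fin n → X) :
    Alt F' v = - Alt F v := by
  rw [alt_perm (Equiv.swap i j) h v, Perm.sign_swap hij]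
  norm_num

lemma alt_zero {i j : Fin n} (hij : i ≠ j) {F : (Fin n → X) → ℝ}
    (h : ∀ w, F w = F (fun l => w (Equiv.swap i j l))) (v : Fin n → X) : Alt F v = 0 := by
  have := alt_swap hij h v
  linarith

lemma alt_add (F F' : (Fin n → X) → ℝ) (v : Fin n → X) :
    Alt (fun w => F w + F' w) v = Alt F v + Alt F' v := by
  unfold Alt
  rw [← Finset.sum_add_distrib]
  exact Finset.sum_congr rfl fun σ _ => by ring

lemma alt_mul (c : ℝ) (F : (Fin n → X) → ℝ) (v : Fin n → X) :
    Alt (fun w => c * F w) v = c * Alt F v := by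
  unfold Alt
  rw [Finset.mul_sum]
  exact Finset.sum_congr rfl fun σ _ => by ring

lemma alt_sub (F F' : (Fin n → X) → ℝ) (v : Fin n → X) :
    Alt (fun w => F w - F' w) v = Alt F v - Alt F' v := by
  unfold Alt
  rw [← Finset.sum_sub_distrib]
  exact Finset.sum_congr rfl fun σ _ => by ring

lemma alt_congr {F F' : (Fin n → X) → ℝ} {v : Fin n → X}
    (h : ∀ σ : Perm (Fin n), F (fun i => v (σ i)) = F' (fun i => v (σ i))) :
    Alt F v = Alt F' v := by
  unfold Alt
  exact Finset.sum_congr rfl fun σ _ => by rw [h σ]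

lemma alt_abs_le {F : (Fin n → X) → ℝ} {v : Fin n → X} {C : ℝ}
    (h : ∀ σ : Perm (Fin n), |F (fun i => v (σ i))| ≤ C) : |Alt F v| ≤ n.factorial * C := by
  unfold Alt
  refine (Finset.abs_sum_le_sum_abs _ _).trans ?_
  have : ∀ σ ∈ (Finset.univ : Finset (Perm (Fin n))),
      |((Perm.sign σ : ℤ) : ℝ) * F (fun i => v (σ i))| ≤ C := by
    intro σ _
    rw [abs_mul]
    have : |((Perm.sign σ : ℤ) : ℝ)| = 1 := by
      rcases Int.units_eq_one_or (Perm.sign σ) with h | h <;> rw [h] <;> norm_num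
    rw [this, one_mul]
    exact h σ
  refine (Finset.sum_le_card_nsmul _ _ _ this).trans ?_
  rw [Finset.card_univ, Fintype.card_perm, Fintype.card_fin, nsmul_eq_mul]

/-- alternating sums are alternating -/
lemma alt_alter (F : (Fin n → X) → ℝ) : Alter (Alt F) := by
  intro i j m hij
  have h1 : Alt F (fun l => m (Equiv.swap i j l)) =
      ∑ σ : Perm (Fin n), ((Perm.sign σ : ℤ) : ℝ) * F (fun l => m (Equiv.swap i j (σ l))) := rfl
  rw [h1]
  unfold Alt
  rw [← Finset.sum_neg_distrib]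
  refine Fintype.sum_equiv (Equiv.mulLeft (Equiv.swap i j)) _ _ fun σ => ?_
  rw [Equiv.coe_mulLeft, Perm.sign_mul, Perm.sign_swap hij]
  simp only [Perm.mul_apply]
  push_cast
  ring

/-- the coboundary of an alternating sum -/
lemma dd_alt (F : (Fin n → X) → ℝ) (v : Fin (n + 1) → X) :
    dd (Alt F) v = Alt (fun w => F (fun j => w j.succ)) v := by
  let Φ : Fin (n + 1) × Perm (Fin n) → Perm (Fin (n + 1)) := fun p =>
    (p.1.cycleRange).symm * Perm.decomposeFin.symm (0, p.2)
  have hΦ0 : ∀ p, Φ p 0 = p.1 := by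
    intro p
    show (p.1.cycleRange).symm (Perm.decomposeFin.symm (0, p.2) 0) = p.1
    rw [Perm.decomposeFin_symm_apply_zero, Fin.cycleRange_symm_zero]
  have hΦs : ∀ p (j : Fin n), Φ p j.succ = p.1.succAbove (p.2 j) := by
    intro p j
    show (p.1.cycleRange).symm (Perm.decomposeFin.symm (0, p.2) j.succ) = p.1.succAbove (p.2 j)
    rw [Perm.decomposeFin_symm_apply_succ, Equiv.swap_self, Equiv.refl_apply,
      Fin.cycleRange_symm_succ]
  have hinj : Function.Injective Φ := by
    intro p p' h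
    have h0 : p.1 = p'.1 := by rw [← hΦ0 p, ← hΦ0 p', h]
    have h1 : p.2 = p'.2 := by
      ext j : 1
      have := hΦs p j
      rw [h, hΦs p' j, h0] at this
      exact (Fin.succAbove_right_injective this).symm
    exact Prod.ext h0 h1
  have hbij : Function.Bijective Φ := by
    rw [Fintype.bijective_iff_injective_and_card]
    refine ⟨hinj, ?_⟩
    rw [Fintype.card_prod, Fintype.card_perm, Fintype.card_perm, Fintype.card_fin,
      Fintype.card_fin, Nat.factorial_succ]
  have hsg : ∀ p, ((Perm.sign (Φ p) : ℤ) : ℝ) = (-1) ^ (p.1 : ℕ) * ((Perm.sign p.2 : ℤ) : ℝ) := by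
    intro p
    show ((Perm.sign ((p.1.cycleRange).symm * Perm.decomposeFin.symm (0, p.2)) : ℤ) : ℝ) = _
    rw [Perm.sign_mul, Perm.sign_symm, Fin.sign_cycleRange, Perm.decomposeFin.symm_sign]
    simp
  have h1 : Alt (fun w : Fin (n + 1) → X => F (fun j => w j.succ)) v =
      ∑ p : Fin (n + 1) × Perm (Fin n), ((Perm.sign (Φ p) : ℤ) : ℝ) *
        F (fun j => v (Φ p j.succ)) := by
    unfold Alt
    exact (Function.Bijective.sum_comp hbij (fun τ : Perm (Fin (n + 1)) =>
      ((Perm.sign τ : ℤ) : ℝ) * F (fun j => v (τ j.succ)))).symm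
  rw [h1, Fintype.sum_prod_type]
  unfold dd Alt
  refine Finset.sum_congr rfl fun i _ => ?_
  rw [Finset.mul_sum]
  refine Finset.sum_congr rfl fun σ _ => ?_
  rw [hsg]
  simp only [hΦs]
  ring

end

end Pool.Agent.Helper93.EX1
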