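import Pool.Agent.Helper87.EX.Defs

/-!
# Project EX, theorem 1, part 1: brackets, the five term relation and the conic relation

Everything is over an abstract function `D : ℂ → ℝ` with the properties of the Bloch-Wigner
dilogarithm which are needed (structure `IsBW`).
-/

set_option autoImplicit false

namespace Pool.Agent.Helper93.EX1

open Pool.Agent.Helper87.EX (dt LL Alt dd Gen G3 act Inv Alter b2)

/-- the algebraic properties of the Bloch-Wigner dilogarithm -/
structure IsBW (D : ℂ → ℝ) : Prop where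
  inv : ∀ z, D z⁻¹ = - D z
  sub : ∀ z, D (1 - z) = - D z
  five : ∀ x y, x ≠ 0 → x ≠ 1 → y ≠ 0 → y ≠ 1 → x ≠ y →
    D x - D y + D (y / x) - D ((1 - x⁻¹) / (1 - y⁻¹)) + D ((1 - x) / (1 - y)) = 0

section
variable {D : ℂ → ℝ}

lemma IsBW.one (h : IsBW D) : D 1 = 0 := by
  have h1 := h.inv 1
  rw [inv_one] at h1
  linarith

lemma IsBW.zero (h : IsBW D) : D 0 = 0 := by
  have h1 := h.sub 1
  rw [sub_self, h.one] at h1
  simpa using h1

/-- the five term relation also holds for `x = y` -/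
lemma IsBW.five' (h : IsBW D) (x y : ℂ) (x0 : x ≠ 0) (x1 : x ≠ 1) (y0 : y ≠ 0) (y1 : y ≠ 1) :
    D x - D y + D (y / x) - D ((1 - x⁻¹) / (1 - y⁻¹)) + D ((1 - x) / (1 - y)) = 0 := by
  by_cases hxy : x = y
  · subst hxy
    have e1 : (1 - x⁻¹ : ℂ) ≠ 0 := by
      intro e
      have : x⁻¹ = 1 := by linear_combination -e
      exact x1 (by rw [← inv_inv x, this, inv_one])
    have e2 : (1 - x : ℂ) ≠ 0 := fun e => x1 (by linear_combination -e)
    rw [div_self x0, div_self e1, div_self e2, h.one]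
    ring
  · exact h.five x y x0 x1 y0 y1 hxy

/-- `D` of the cross ratio of four indices for a bracket -/
noncomputable def cr (D : ℂ → ℝ) {ι : Type*} (b : ι → ι → ℂ) (i j k l : ι) : ℝ :=
  D (b i k * b j l / (b i l * b j k))

/-- the five term relation in terms of a bracket; the last bracket `[3 4]` may vanish -/
lemma five_bracket (h : IsBW D) {ι : Type*} (b : ι → ι → ℂ) (p0 p1 p2 p3 p4 : ι)
    (h01 : b p0 p1 ≠ 0) (h02 : b p0 p2 ≠ 0) (h03 : b p0 p3 ≠ 0) (h04 : b p0 p4 ≠ 0)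
    (h12 : b p1 p2 ≠ 0) (h13 : b p1 p3 ≠ 0) (h14 : b p1 p4 ≠ 0)
    (h23 : b p2 p3 ≠ 0) (h24 : b p2 p4 ≠ 0)
    (e3 : b p0 p1 * b p2 p3 - b p0 p2 * b p1 p3 + b p0 p3 * b p1 p2 = 0)
    (e4 : b p0 p1 * b p2 p4 - b p0 p2 * b p1 p4 + b p0 p4 * b p1 p2 = 0) :
    cr D b p1 p2 p3 p4 - cr D b p0 p2 p3 p4 + cr D b p0 p1 p3 p4 - cr D b p0 p1 p2 p4
      + cr D b p0 p1 p2 p3 = 0 := by
  set x : ℂ := b p0 p2 * b p1 p3 / (b p0 p3 * b p1 p2) with hx
  set y : ℂ := b p0 p2 * b p1 p4 / (b p0 p4 * b p1 p2) with hy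
  have x0 : x ≠ 0 := by rw [hx]; positivity
  have y0 : y ≠ 0 := by rw [hy]; positivity
  have ex : 1 - x = - (b p0 p1 * b p2 p3) / (b p0 p3 * b p1 p2) := by
    rw [hx]
    field_simp
    linear_combination e3
  have ey : 1 - y = - (b p0 p1 * b p2 p4) / (b p0 p4 * b p1 p2) := by
    rw [hy]
    field_simp
    linear_combination e4
  have x1 : x ≠ 1 := by
    intro e
    rw [e, sub_self] at ex
    have : - (b p0 p1 * b p2 p3) / (b p0 p3 * b p1 p2) ≠ 0 :=
      div_ne_zero (neg_ne_zero.mpr (mul_ne_zero h01 h23)) (mul_ne_zero h03 h12)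
    exact this ex.symm
  have y1 : y ≠ 1 := by
    intro e
    rw [e, sub_self] at ey
    have : - (b p0 p1 * b p2 p4) / (b p0 p4 * b p1 p2) ≠ 0 :=
      div_ne_zero (neg_ne_zero.mpr (mul_ne_zero h01 h24)) (mul_ne_zero h04 h12)
    exact this ey.symm
  have key := h.five' x y x0 x1 y0 y1
  have c4 : cr D b p0 p1 p2 p3 = D x := rfl
  have c3 : cr D b p0 p1 p2 p4 = D y := rfl
  have c2 : cr D b p0 p1 p3 p4 = D (y / x) := by
    unfold cr
    congr 1
    rw [hx, hy]
    field_simp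
  have c1 : cr D b p0 p2 p3 p4 = - D ((1 - x) / (1 - y)) := by
    rw [← h.inv, ex, ey]
    unfold cr
    congr 1
    rw [inv_div]
    field_simp
  have c0 : cr D b p1 p2 p3 p4 = - D ((1 - x⁻¹) / (1 - y⁻¹)) := by
    rw [← h.inv]
    have e1 : 1 - x⁻¹ = - (1 - x) / x := by field_simp; ring
    have e2 : 1 - y⁻¹ = - (1 - y) / y := by field_simp; ring
    rw [e1, e2, ex, ey]
    unfold cr
    congr 1
    rw [hx, hy, inv_div]
    field_simp
  rw [c0, c1, c2, c3, c4]
  linear_combination key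

/-! ### determinants -/

lemma dt_swap12 (a b c : Fin 3 → ℂ) : dt b a c = - dt a b c := by unfold dt; ring
lemma dt_swap23 (a b c : Fin 3 → ℂ) : dt a c b = - dt a b c := by unfold dt; ring
lemma dt_swap13 (a b c : Fin 3 → ℂ) : dt c b a = - dt a b c := by unfold dt; ring
lemma dt_cyc (a b c : Fin 3 → ℂ) : dt b c a = dt a b c := by unfold dt; ring
lemma dt_cyc' (a b c : Fin 3 → ℂ) : dt c a b = dt a b c := by unfold dt; ring

lemma LL_swap12 (a b c : Fin 3 → ℂ) : LL b a c = LL a b c := by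
  unfold LL; rw [dt_swap12, norm_neg]
lemma LL_swap23 (a b c : Fin 3 → ℂ) : LL a c b = LL a b c := by
  unfold LL; rw [dt_swap23, norm_neg]
lemma LL_swap13 (a b c : Fin 3 → ℂ) : LL c b a = LL a b c := by
  unfold LL; rw [dt_swap13, norm_neg]
lemma LL_cyc (a b c : Fin 3 → ℂ) : LL b c a = LL a b c := by unfold LL; rw [dt_cyc]
lemma LL_cyc' (a b c : Fin 3 → ℂ) : LL c a b = LL a b c := by unfold LL; rw [dt_cyc']

/-- `D` of the cross ratio of `a, b, c, d` seen from `e` -/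
noncomputable def V (D : ℂ → ℝ) (e a b c d : Fin 3 → ℂ) : ℝ :=
  D (dt e a c * dt e b d / (dt e a d * dt e b c))

lemma V_eq_cr (e a b c d : Fin 3 → ℂ) : V D e a b c d = cr D (dt e) a b c d := rfl

lemma dt_pluecker (e a b c d : Fin 3 → ℂ) :
    dt e a b * dt e c d - dt e a c * dt e b d + dt e a d * dt e b c = 0 := by
  unfold dt; ring

lemma V_swap34 (h : IsBW D) (e a b c d : Fin 3 → ℂ) : V D e a b d c = - V D e a b c d := by
  unfold V
  rw [← h.inv, inv_div]

lemma V_swap12 (h : IsBW D) (e a b c d : Fin 3 → ℂ) : V D e b a c d = - V D e a b c d := by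
  unfold V
  rw [← h.inv, inv_div]
  congr 1
  rw [mul_comm (dt e b c), mul_comm (dt e b d)]

lemma V_swap23 (h : IsBW D) (e a b c d : Fin 3 → ℂ) : V D e a c b d = - V D e a b c d := by
  have hcb : dt e c b = - dt e b c := dt_swap23 e b c
  by_cases h1 : dt e a d * dt e b c = 0
  · unfold V
    rw [hcb, mul_neg, h1, neg_zero, div_zero, div_zero, h.zero, neg_zero]
  · unfold V
    rw [← h.sub]
    congr 1
    rw [hcb, mul_neg, div_neg, eq_comm, ← sub_eq_zero]
    have h2 : dt e a b * dt e c d = dt e a c * dt e b d - dt e a d * dt e b c := by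
      linear_combination dt_pluecker e a b c d
    rw [h2, sub_div, div_self h1]
    ring

/-- scale invariance in the last four variables -/
lemma V_smul (e a b c d : Fin 3 → ℂ) (s : ℂ) (ta tb tc td : ℂ) (hs : s ≠ 0) (ha : ta ≠ 0)
    (hb : tb ≠ 0) (hc : tc ≠ 0) (hd : td ≠ 0) :
    V D (s • e) (ta • a) (tb • b) (tc • c) (td • d) = V D e a b c d := by
  have hdt : ∀ (x y z : Fin 3 → ℂ) (p q r : ℂ), dt (p • x) (q • y) (r • z) =
      p * q * r * dt x y z := by
    intro x y z p q r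
    unfold dt
    simp only [Pi.smul_apply, smul_eq_mul]
    ring
  unfold V
  congr 1
  rw [hdt, hdt, hdt, hdt]
  by_cases h1 : dt e a d * dt e b c = 0
  · rw [h1, div_zero]
    have : s * ta * td * dt e a d * (s * tb * tc * dt e b c) = 0 := by
      linear_combination (s * ta * td * s * tb * tc) * h1
    rw [this, div_zero]
  · have h2 : s * ta * td * dt e a d * (s * tb * tc * dt e b c) ≠ 0 := by
      have h3 := left_ne_zero_of_mul h1
      have h4 := right_ne_zero_of_mul h1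
      positivity
    rw [div_eq_div_iff h2 h1]
    ring

/-- the conic relation -/
theorem conic (h : IsBW D) (v : Fin 5 → Fin 3 → ℂ) (hv : Gen v) :
    V D (v 0) (v 1) (v 2) (v 3) (v 4) - V D (v 1) (v 0) (v 2) (v 3) (v 4)
      + V D (v 2) (v 0) (v 1) (v 3) (v 4) - V D (v 3) (v 0) (v 1) (v 2) (v 4)
      + V D (v 4) (v 0) (v 1) (v 2) (v 3) = 0 := by
  set b : Fin 5 → Fin 5 → ℂ := fun i j =>
    if i = 0 ∧ j = 1 then - dt (v 2) (v 3) (v 4)
    else if i = 0 ∧ j = 2 then dt (v 1) (v 3) (v 4)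
    else if i = 0 ∧ j = 3 then - dt (v 1) (v 2) (v 4)
    else if i = 0 ∧ j = 4 then dt (v 1) (v 2) (v 3)
    else if i = 1 ∧ j = 2 then - dt (v 0) (v 3) (v 4)
    else if i = 1 ∧ j = 3 then dt (v 0) (v 2) (v 4)
    else if i = 1 ∧ j = 4 then - dt (v 0) (v 2) (v 3)
    else if i = 2 ∧ j = 3 then - dt (v 0) (v 1) (v 4)
    else if i = 2 ∧ j = 4 then dt (v 0) (v 1) (v 3)
    else - dt (v 0) (v 1) (v 2) with hb
  have b01 : b 0 1 = - dt (v 2) (v 3) (v 4) := rfl
  have b02 : b 0 2 = dt (v 1) (v 3) (v 4) := rfl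
  have b03 : b 0 3 = - dt (v 1) (v 2) (v 4) := rfl
  have b04 : b 0 4 = dt (v 1) (v 2) (v 3) := rfl
  have b12 : b 1 2 = - dt (v 0) (v 3) (v 4) := rfl
  have b13 : b 1 3 = dt (v 0) (v 2) (v 4) := rfl
  have b14 : b 1 4 = - dt (v 0) (v 2) (v 3) := rfl
  have b23 : b 2 3 = - dt (v 0) (v 1) (v 4) := rfl
  have b24 : b 2 4 = dt (v 0) (v 1) (v 3) := rfl
  have b34 : b 3 4 = - dt (v 0) (v 1) (v 2) := rfl
  have nz : ∀ i j k : Fin 5, i ≠ j → i ≠ k → j ≠ k → dt (v i) (v j) (v k) ≠ 0 := hv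
  have key := five_bracket h b 0 1 2 3 4
    (by rw [b01]; exact neg_ne_zero.mpr (nz _ _ _ (by decide) (by decide) (by decide)))
    (by rw [b02]; exact (nz _ _ _ (by decide) (by decide) (by decide)))
    (by rw [b03]; exact neg_ne_zero.mpr (nz _ _ _ (by decide) (by decide) (by decide)))
    (by rw [b04]; exact (nz _ _ _ (by decide) (by decide) (by decide)))
    (by rw [b12]; exact neg_ne_zero.mpr (nz _ _ _ (by decide) (by decide) (by decide)))
    (by rw [b13]; exact (nz _ _ _ (by decide) (by decide) (by decide)))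
    (by rw [b14]; exact neg_ne_zero.mpr (nz _ _ _ (by decide) (by decide) (by decide)))
    (by rw [b23]; exact neg_ne_zero.mpr (nz _ _ _ (by decide) (by decide) (by decide)))
    (by rw [b24]; exact (nz _ _ _ (by decide) (by decide) (by decide)))
    (by rw [b01, b23, b02, b13, b03, b12]; unfold dt; ring)
    (by rw [b01, b24, b02, b14, b04, b12]; unfold dt; ring)
  have c0 : cr D b 1 2 3 4 = V D (v 0) (v 1) (v 2) (v 3) (v 4) := by
    unfold cr V
    rw [b13, b24, b14, b23]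
    congr 1
    ring
  have c1 : cr D b 0 2 3 4 = V D (v 1) (v 0) (v 2) (v 3) (v 4) := by
    unfold cr V
    rw [b03, b24, b04, b23, dt_swap12 (v 0) (v 1), dt_swap12 (v 0) (v 1)]
    congr 1
    ring
  have c2 : cr D b 0 1 3 4 = V D (v 2) (v 0) (v 1) (v 3) (v 4) := by
    unfold cr V
    rw [b03, b14, b04, b13, dt_swap12 (v 0) (v 2), dt_swap12 (v 1) (v 2), dt_swap12 (v 0) (v 2),
      dt_swap12 (v 1) (v 2)]
    congr 1
    ring
  have c3 : cr D b 0 1 2 4 = V D (v 3) (v 0) (v 1) (v 2) (v 4) := by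
    unfold cr V
    rw [b02, b14, b04, b12, dt_cyc' (v 0) (v 2) (v 3), dt_swap12 (v 1) (v 3),
      dt_swap12 (v 0) (v 3), dt_cyc' (v 1) (v 2) (v 3)]
    congr 1
    ring
  have c4 : cr D b 0 1 2 3 = V D (v 4) (v 0) (v 1) (v 2) (v 3) := by
    unfold cr V
    rw [b02, b13, b03, b12, dt_cyc' (v 0) (v 2) (v 4), dt_cyc' (v 1) (v 3) (v 4),
      dt_cyc' (v 0) (v 3) (v 4), dt_cyc' (v 1) (v 2) (v 4)]
    congr 1
    ring
  rw [c0, c1, c2, c3, c4] at key
  exact key

end

end Pool.Agent.Helper93.EX1
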